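import Pool.Agent.Helper89.Stx.Defs
import Pool.Agent.Helper65.Stz.Basic
import Pool.Agent.Helper92.Stz.Kernel

/-!
# Mean square of the Weyl majorant

* `mn_le`: `mn A L u` is at most eight times a sum of Fejer kernels;
* `energy`: the number of solutions of `v s = v' s'`;
* `U_sq`: the mean square of `U`.
-/

set_option autoImplicit false

namespace Stx

open Finset Stz

open scoped ComplexConjugate Pointwise

namespace Us

open Stz.W92

/-! ### The divisor function -/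

theorem sum_div (V : ℕ) : ∑ v ∈ Icc 1 V, ((v.divisors.card : ℕ) : ℝ) ≤ V * (1 + Real.log V) := by
  have h1 : ∑ v ∈ Icc 1 V, v.divisors.card = ∑ k ∈ Icc 1 V, V / k := by
    have e1 : ∀ v ∈ Icc 1 V, v.divisors.card = ∑ k ∈ Icc 1 V, if k ∣ v then 1 else 0 := by
      intro v hv
      rw [← card_filter]
      congr 1
      ext k
      rw [Nat.mem_divisors, mem_filter, mem_Icc]
      have hv' := mem_Icc.mp hv
      constructor
      · rintro ⟨h1, h2⟩
        exact ⟨⟨Nat.pos_of_dvd_of_pos h1 (by omega), (Nat.le_of_dvd (by omega) h1).trans hv'.2⟩, h1⟩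
      · rintro ⟨h1, h2⟩
        exact ⟨h2, by omega⟩
    rw [sum_congr rfl e1, sum_comm]
    refine sum_congr rfl fun k _ => ?_
    rw [← card_filter]
    have e2 := Nat.Ioc_filter_dvd_card_eq_div V k
    rw [← e2]
    congr 1
  have h2 : ∑ v ∈ Icc 1 V, ((v.divisors.card : ℕ) : ℝ) = ((∑ v ∈ Icc 1 V, v.divisors.card : ℕ) : ℝ) := by
    push_cast
    rfl
  rw [h2, h1]
  push_cast
  have h3 : ∑ k ∈ Icc 1 V, (((V / k : ℕ)) : ℝ) ≤ ∑ k ∈ Icc 1 V, (V : ℝ) * ((k : ℝ))⁻¹ := by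
    refine sum_le_sum fun k _ => ?_
    rw [← div_eq_mul_inv]
    exact Nat.cast_div_le
  refine h3.trans ?_
  rw [← mul_sum]
  refine mul_le_mul_of_nonneg_left ?_ (Nat.cast_nonneg V)
  have h4 := harmonic_le_one_add_log V
  rw [harmonic_eq_sum_Icc] at h4
  push_cast at h4
  exact h4

/-- sum over a symmetric interval -/
theorem sum_symm (V : ℕ) (g : ℕ → ℝ) (h0 : g 0 = 0) :
    ∑ v ∈ Icc (-(V : ℤ)) V, g v.natAbs = 2 * ∑ v ∈ Icc 1 V, g v := by
  induction V with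
  | zero => simp [h0]
  | succ m ih =>
    have h1 : Icc (-((m + 1 : ℕ) : ℤ)) ((m + 1 : ℕ) : ℤ) =
        insert (-((m + 1 : ℕ) : ℤ)) (insert ((m + 1 : ℕ) : ℤ) (Icc (-(m : ℤ)) m)) := by
      ext j
      simp only [mem_insert, mem_Icc]
      push_cast
      omega
    have h2 : ((m + 1 : ℕ) : ℤ) ∉ Icc (-(m : ℤ)) m := by
      rw [mem_Icc]
      push_cast
      omega
    have h3 : -((m + 1 : ℕ) : ℤ) ∉ insert ((m + 1 : ℕ) : ℤ) (Icc (-(m : ℤ)) m) := by
      rw [mem_insert, mem_Icc]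
      push_cast
      omega
    rw [h1, sum_insert h3, sum_insert h2, ih, sum_Icc_succ_top (by omega)]
    have h4 : (-((m + 1 : ℕ) : ℤ)).natAbs = m + 1 := by omega
    have h5 : (((m + 1 : ℕ) : ℤ)).natAbs = m + 1 := by omega
    rw [h4, h5]
    ring

/-- representations of `n` as a product -/
noncomputable def rr (V L : ℕ) (n : ℤ) : ℕ :=
  ((Icc (-(V : ℤ)) V ×ˢ Icc (-(L : ℤ)) L).filter fun x => x.1 * x.2 = n).card

theorem rr_zero (V L : ℕ) : rr V L 0 ≤ 2 * V + 2 * L + 2 := by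
  have h1 : ((Icc (-(V : ℤ)) V ×ˢ Icc (-(L : ℤ)) L).filter fun x => x.1 * x.2 = 0) ⊆
      (Icc (-(V : ℤ)) V ×ˢ {0}) ∪ ({0} ×ˢ Icc (-(L : ℤ)) L) := by
    intro x hx
    rw [mem_filter, mem_product] at hx
    rw [mem_union, mem_product, mem_product, mem_singleton, mem_singleton]
    rcases mul_eq_zero.mp hx.2 with h | h
    · exact Or.inr ⟨h, hx.1.2⟩
    · exact Or.inl ⟨hx.1.1, h⟩
  refine (card_le_card h1).trans ((card_union_le _ _).trans ?_)
  rw [card_product, card_product, card_singleton, Int.card_Icc, Int.card_Icc]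
  omega

theorem rr_le (V L : ℕ) (n : ℤ) (hn : n ≠ 0) : rr V L n ≤ 2 * (n.natAbs).divisors.card := by
  have h1 : rr V L n ≤ ((n.natAbs.divisors.image fun k : ℕ => (k : ℤ)) ∪
      (n.natAbs.divisors.image fun k : ℕ => -(k : ℤ))).card := by
    unfold rr
    refine card_le_card_of_injOn (fun x => x.1) ?_ ?_
    · intro x hx
      have hx2 := (mem_filter.mp (mem_coe.mp hx)).2
      have hd : x.1.natAbs ∈ n.natAbs.divisors := by
        rw [Nat.mem_divisors]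
        refine ⟨?_, by omega⟩
        rw [← hx2, Int.natAbs_mul]
        exact dvd_mul_right _ _
      rw [mem_coe, mem_union, mem_image, mem_image]
      rcases Int.natAbs_eq x.1 with h | h
      · exact Or.inl ⟨_, hd, h.symm⟩
      · exact Or.inr ⟨_, hd, h.symm⟩
    · intro x hx y hy hxy
      have hx2 := (mem_filter.mp (mem_coe.mp hx)).2
      have hy2 := (mem_filter.mp (mem_coe.mp hy)).2
      dsimp only at hxy
      have h0 : x.1 ≠ 0 := by
        intro h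
        rw [h, zero_mul] at hx2
        exact hn hx2.symm
      refine Prod.ext hxy ?_
      rw [← hy2, ← hxy] at hx2
      exact mul_left_cancel₀ h0 hx2
  refine h1.trans ((card_union_le _ _).trans ?_)
  have h2 : (n.natAbs.divisors.image fun k : ℕ => (k : ℤ)).card ≤ n.natAbs.divisors.card := card_image_le
  have h3 : (n.natAbs.divisors.image fun k : ℕ => -(k : ℤ)).card ≤ n.natAbs.divisors.card := card_image_le
  omega

theorem divisors_mul_le (a b : ℕ) : (a * b).divisors.card ≤ a.divisors.card * b.divisors.card := by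
  rw [Nat.divisors_mul]
  exact card_mul_le

theorem energy (V L : ℕ) : ∑ n ∈ Icc (-(V * L : ℤ)) (V * L), (rr V L n : ℝ) ^ 2 ≤
    (2 * V + 2 * L + 2) ^ 2 + 8 * (V * (1 + Real.log V)) * (L * (1 + Real.log L)) := by
  set X := Icc (-(V : ℤ)) V ×ˢ Icc (-(L : ℤ)) L with hX
  have hmap : ∀ x ∈ X, x.1 * x.2 ∈ Icc (-(V * L : ℤ)) (V * L) := by
    intro x hx
    rw [hX, mem_product, mem_Icc, mem_Icc] at hx
    rw [mem_Icc, ← abs_le, abs_mul]
    exact mul_le_mul (abs_le.mpr hx.1) (abs_le.mpr hx.2) (abs_nonneg _) (by positivity)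
  have h1 : ∑ n ∈ Icc (-(V * L : ℤ)) (V * L), (rr V L n : ℝ) ^ 2 = ∑ x ∈ X, (rr V L (x.1 * x.2) : ℝ) := by
    rw [← sum_fiberwise_of_maps_to hmap]
    refine sum_congr rfl fun n _ => ?_
    have : ∀ x ∈ X.filter (fun x => x.1 * x.2 = n), (rr V L (x.1 * x.2) : ℝ) = rr V L n := by
      intro x hx
      rw [(mem_filter.mp hx).2]
    rw [sum_congr rfl this, sum_const, nsmul_eq_mul, sq]
    rfl
  rw [h1]
  have h2 : ∀ x ∈ X, (rr V L (x.1 * x.2) : ℝ) ≤ (if x.1 * x.2 = 0 then (rr V L 0 : ℝ) else 0) +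
      2 * ((x.1.natAbs.divisors.card : ℝ) * (x.2.natAbs.divisors.card : ℝ)) := by
    intro x _
    by_cases h : x.1 * x.2 = 0
    · rw [if_pos h, h]
      have : (0 : ℝ) ≤ 2 * ((x.1.natAbs.divisors.card : ℝ) * (x.2.natAbs.divisors.card : ℝ)) := by positivity
      linarith
    · rw [if_neg h, zero_add]
      have h3 := rr_le V L _ h
      have h4 := divisors_mul_le x.1.natAbs x.2.natAbs
      rw [← Int.natAbs_mul] at h4
      have h5 : rr V L (x.1 * x.2) ≤ 2 * (x.1.natAbs.divisors.card * x.2.natAbs.divisors.card) := by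
        omega
      exact_mod_cast h5
  refine (sum_le_sum h2).trans ?_
  rw [sum_add_distrib, ← sum_filter, sum_const, nsmul_eq_mul]
  have h3 : (((X.filter fun x => x.1 * x.2 = 0).card : ℕ) : ℝ) = (rr V L 0 : ℝ) := rfl
  rw [h3]
  have h4 : (rr V L 0 : ℝ) ≤ 2 * V + 2 * L + 2 := by exact_mod_cast rr_zero V L
  have h5 : (rr V L 0 : ℝ) * (rr V L 0 : ℝ) ≤ (2 * V + 2 * L + 2) ^ 2 := by
    rw [sq]
    exact mul_le_mul h4 h4 (Nat.cast_nonneg _) (by positivity)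
  have h6 : ∑ x ∈ X, 2 * ((x.1.natAbs.divisors.card : ℝ) * (x.2.natAbs.divisors.card : ℝ)) =
      2 * ((∑ v ∈ Icc (-(V : ℤ)) V, (v.natAbs.divisors.card : ℝ)) *
        ∑ s ∈ Icc (-(L : ℤ)) L, (s.natAbs.divisors.card : ℝ)) := by
    rw [← mul_sum, hX, sum_product, sum_mul_sum]
  have hz : ((Nat.divisors 0).card : ℝ) = 0 := by rw [Nat.divisors_zero, card_empty, Nat.cast_zero]
  rw [h6, sum_symm V (fun k => (k.divisors.card : ℝ)) hz,
    sum_symm L (fun k => (k.divisors.card : ℝ)) hz]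
  have h7 := sum_div V
  have h8 := sum_div L
  have h9 : (0 : ℝ) ≤ ∑ v ∈ Icc 1 V, ((v.divisors.card : ℕ) : ℝ) := sum_nonneg fun _ _ => Nat.cast_nonneg _
  have h10 : (0 : ℝ) ≤ ∑ v ∈ Icc 1 L, ((v.divisors.card : ℕ) : ℝ) := sum_nonneg fun _ _ => Nat.cast_nonneg _
  have h11 := mul_le_mul h7 h8 h10 (h9.trans h7)
  have h12 : 2 * (2 * ∑ v ∈ Icc 1 V, ((v.divisors.card : ℕ) : ℝ)) * (2 * ∑ v ∈ Icc 1 L, ((v.divisors.card : ℕ) : ℝ)) =
      8 * ((∑ v ∈ Icc 1 V, ((v.divisors.card : ℕ) : ℝ)) * ∑ v ∈ Icc 1 L, ((v.divisors.card : ℕ) : ℝ)) := by ring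
  rw [← mul_assoc 2 (2 * _), h12]
  linarith

/-! ### Fejer kernels -/

theorem low {t : ℝ} {M : ℕ} (hM : 1 ≤ M) (ht : M * |t| ≤ 1 / 2) :
    (M : ℝ) / 2 ≤ ‖∑ j ∈ range M, ex (j * t)‖ := by
  by_cases h0 : t = 0
  · subst h0
    have : ∀ j ∈ range M, ex ((j : ℝ) * 0) = 1 := by
      intro j _
      rw [mul_zero]
      have := ex_int 0
      simpa using this
    rw [sum_congr rfl this, sum_const, card_range, nsmul_eq_mul, mul_one, Complex.norm_natCast]
    have : (0 : ℝ) ≤ M := Nat.cast_nonneg M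
    linarith
  · have hM' : (1 : ℝ) ≤ M := by exact_mod_cast hM
    have ht0 : 0 < |t| := abs_pos.mpr h0
    have h1 : (∑ j ∈ range M, ex (j * t)) * (ex t - 1) = ex (M * t) - 1 := by
      simp only [ex_nat_mul]
      exact geom_sum_mul (ex t) M
    have h2 : ‖ex t - 1‖ ≤ 8 * |t| := by
      refine (ex_sub_one_le t).trans ?_
      have := Real.pi_le_four
      nlinarith
    have h3 : 4 * |(M : ℝ) * t| ≤ ‖ex (M * t) - 1‖ := by
      rw [← norm_neg, neg_sub]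
      apply four_le
      rw [abs_mul, abs_of_nonneg (by positivity : (0 : ℝ) ≤ M)]
      exact ht
    rw [abs_mul, abs_of_nonneg (by positivity : (0 : ℝ) ≤ M), ← h1, norm_mul] at h3
    have h4 : ‖∑ j ∈ range M, ex (j * t)‖ * ‖ex t - 1‖ ≤ ‖∑ j ∈ range M, ex (j * t)‖ * (8 * |t|) :=
      mul_le_mul_of_nonneg_left h2 (norm_nonneg _)
    have h5 : 4 * (M * |t|) ≤ ‖∑ j ∈ range M, ex (j * t)‖ * (8 * |t|) := h3.trans h4
    have h6 : (M / 2 : ℝ) * (8 * |t|) ≤ ‖∑ j ∈ range M, ex (j * t)‖ * (8 * |t|) := by linarith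
    exact le_of_mul_le_mul_right h6 (by positivity)

/-- sum of Fejer kernels -/
noncomputable def K (A : ℕ) [NeZero A] (L : ℕ) (u : ZMod A) : ℝ :=
  ∑ i ∈ range (Nat.log 2 L + 1), ((2 : ℝ) ^ i)⁻¹ * ‖∑ j ∈ range (2 ^ i), ps A ((j : ZMod A) * u)‖ ^ 2

theorem ps_ex (A : ℕ) [NeZero A] (u : ZMod A) (j : ℕ) :
    ps A ((j : ZMod A) * u) = ex (j * ((u.valMinAbs : ℝ) / A)) := by
  have h1 : (j : ZMod A) * u = ((((j : ℤ) * u.valMinAbs : ℤ)) : ZMod A) := by
    rw [Int.cast_mul, ZMod.coe_valMinAbs, Int.cast_natCast]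
  rw [h1, ps_int]
  congr 1
  push_cast
  ring

theorem mn_le (A : ℕ) [NeZero A] (L : ℕ) (hL : 1 ≤ L) (u : ZMod A) : mn A L u ≤ 8 * K A L u := by
  have hA : (0 : ℝ) < A := Nat.cast_pos.mpr (Nat.pos_of_ne_zero (NeZero.ne A))
  set t : ℝ := (u.valMinAbs : ℝ) / A with ht
  have hn : nrm A u = |t| := by
    rw [ht, abs_div, abs_of_pos hA]
    rfl
  have hL' : (1 : ℝ) ≤ L := by exact_mod_cast hL
  -- the scale
  have ht2 : |t| ≤ 1 / 2 := by
    rw [← hn]
    unfold nrm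
    rw [div_le_iff₀ hA]
    have h1 := ZMod.natAbs_valMinAbs_le u
    have h2 : (u.valMinAbs.natAbs : ℝ) ≤ (A : ℝ) / 2 := by
      have h3 : ((u.valMinAbs.natAbs : ℕ) : ℝ) ≤ ((A / 2 : ℕ) : ℝ) := by exact_mod_cast h1
      exact h3.trans Nat.cast_div_le
    have h4 : |(u.valMinAbs : ℝ)| = (u.valMinAbs.natAbs : ℝ) := by
      rw [Nat.cast_natAbs]
      push_cast
      rfl
    rw [h4]
    linarith
  have key : ∃ i, i ≤ Nat.log 2 L ∧ (2 : ℝ) ^ i * |t| ≤ 1 / 2 ∧ mn A L u ≤ 2 * 2 ^ i := by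
    classical
    set P : ℕ → Prop := fun i => (2 : ℝ) ^ i * |t| ≤ 1 / 2 with hP
    have hP0 : P 0 := by
      rw [hP]
      simpa using ht2
    set i := Nat.findGreatest P (Nat.log 2 L) with hi
    have h1 : i ≤ Nat.log 2 L := Nat.findGreatest_le _
    have h2 : P i := Nat.findGreatest_spec (Nat.zero_le _) hP0
    refine ⟨i, h1, h2, ?_⟩
    unfold mn
    rcases Nat.lt_or_ge i (Nat.log 2 L) with h3 | h3
    · have h4 : ¬ P (i + 1) := Nat.findGreatest_is_greatest (Nat.lt_succ_self i) h3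
      rw [hP] at h4
      push Not at h4
      have h5 : (2 * (2 : ℝ) ^ i)⁻¹ ≤ max (1 / (L : ℝ)) (2 * nrm A u) := by
        refine le_trans ?_ (le_max_right _ _)
        rw [hn, inv_le_iff_one_le_mul₀ (by positivity)]
        rw [pow_succ] at h4
        linarith
      exact inv_le_of_inv_le₀ (by positivity) h5
    · have h4 : i = Nat.log 2 L := le_antisymm h1 h3
      have h5 : L < 2 ^ (i + 1) := by
        rw [h4]
        exact Nat.lt_pow_succ_log_self (by norm_num) L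
      have h6 : (L : ℝ) ≤ 2 * 2 ^ i := by
        have : (L : ℝ) < (2 : ℝ) ^ (i + 1) := by exact_mod_cast h5
        rw [pow_succ] at this
        linarith
      have h5 : (2 * (2 : ℝ) ^ i)⁻¹ ≤ max (1 / (L : ℝ)) (2 * nrm A u) := by
        refine le_trans ?_ (le_max_left _ _)
        rw [one_div]
        exact inv_anti₀ (by positivity) h6
      exact inv_le_of_inv_le₀ (by positivity) h5
  obtain ⟨i, h1, h2, h3⟩ := key
  have h4 : ((2 : ℝ) ^ i) / 2 ≤ ‖∑ j ∈ range (2 ^ i), ps A ((j : ZMod A) * u)‖ := by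
    simp only [ps_ex]
    have := low (t := t) (M := 2 ^ i) Nat.one_le_two_pow (by push_cast; exact h2)
    push_cast at this
    exact this
  have h5 : (2 : ℝ) ^ i / 4 ≤ ((2 : ℝ) ^ i)⁻¹ * ‖∑ j ∈ range (2 ^ i), ps A ((j : ZMod A) * u)‖ ^ 2 := by
    have h6 : (((2 : ℝ) ^ i) / 2) ^ 2 ≤ ‖∑ j ∈ range (2 ^ i), ps A ((j : ZMod A) * u)‖ ^ 2 :=
      pow_le_pow_left₀ (by positivity) h4 2
    have h7 : (2 : ℝ) ^ i / 4 = ((2 : ℝ) ^ i)⁻¹ * (((2 : ℝ) ^ i) / 2) ^ 2 := by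
      field_simp
      norm_num
    rw [h7]
    exact mul_le_mul_of_nonneg_left h6 (by positivity)
  have h6 : ((2 : ℝ) ^ i)⁻¹ * ‖∑ j ∈ range (2 ^ i), ps A ((j : ZMod A) * u)‖ ^ 2 ≤ K A L u := by
    unfold K
    exact single_le_sum (f := fun i => ((2 : ℝ) ^ i)⁻¹ * ‖∑ j ∈ range (2 ^ i), ps A ((j : ZMod A) * u)‖ ^ 2)
      (fun j _ => by positivity) (mem_range.mpr (by omega))
  linarith

/-- number of pairs with difference `s` -/
noncomputable def cd (M : ℕ) (s : ℤ) : ℕ :=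
  ((range M ×ˢ range M).filter fun p : ℕ × ℕ => (p.1 : ℤ) - p.2 = s).card

theorem cd_le (M : ℕ) (s : ℤ) : cd M s ≤ M := by
  unfold cd
  have h : ((range M ×ˢ range M).filter fun p : ℕ × ℕ => (p.1 : ℤ) - p.2 = s).card ≤ (range M).card := by
    refine card_le_card_of_injOn (fun p => p.2) ?_ ?_
    · intro p hp
      exact (mem_product.mp (mem_filter.mp (mem_coe.mp hp)).1).2
    · intro p hp q hq hpq
      have h1 := (mem_filter.mp (mem_coe.mp hp)).2
      have h2 := (mem_filter.mp (mem_coe.mp hq)).2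
      dsimp only at hpq
      refine Prod.ext ?_ hpq
      rw [hpq] at h1
      omega
  rwa [card_range] at h

/-- coefficients of the sum of Fejer kernels -/
noncomputable def Wc (L : ℕ) (s : ℤ) : ℝ :=
  ∑ i ∈ range (Nat.log 2 L + 1), ((2 : ℝ) ^ i)⁻¹ * cd (2 ^ i) s

theorem Wc_nonneg (L : ℕ) (s : ℤ) : 0 ≤ Wc L s := by
  unfold Wc
  positivity

theorem Wc_le (L : ℕ) (s : ℤ) : Wc L s ≤ Nat.log 2 L + 1 := by
  unfold Wc
  have h : ∀ i ∈ range (Nat.log 2 L + 1), ((2 : ℝ) ^ i)⁻¹ * cd (2 ^ i) s ≤ 1 := by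
    intro i _
    have h1 : (cd (2 ^ i) s : ℝ) ≤ 2 ^ i := by exact_mod_cast cd_le (2 ^ i) s
    rw [inv_mul_le_iff₀ (by positivity), mul_one]
    exact h1
  refine (sum_le_sum h).trans ?_
  simp

theorem K_eq (A : ℕ) [NeZero A] (L : ℕ) (hL : 1 ≤ L) (u : ZMod A) :
    (K A L u : ℂ) = ∑ s ∈ Icc (-(L : ℤ)) L, (Wc L s : ℂ) * ps A ((s : ZMod A) * u) := by
  have h1 : ∀ i ∈ range (Nat.log 2 L + 1), ((‖∑ j ∈ range (2 ^ i), ps A ((j : ZMod A) * u)‖ ^ 2 : ℝ) : ℂ) =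
      ∑ s ∈ Icc (-(L : ℤ)) L, (cd (2 ^ i) s : ℂ) * ps A ((s : ZMod A) * u) := by
    intro i hi
    have hi' : 2 ^ i ≤ L := by
      have : i ≤ Nat.log 2 L := by
        have := mem_range.mp hi
        omega
      exact (Nat.pow_le_pow_right (by norm_num) this).trans (Nat.pow_log_le_self 2 (by omega))
    rw [sq_norm_eq, map_sum, sum_mul_sum, ← sum_product']
    have h2 : ∀ p ∈ range (2 ^ i) ×ˢ range (2 ^ i), ps A ((p.1 : ZMod A) * u) * conj (ps A ((p.2 : ZMod A) * u)) =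
        ps A ((((p.1 : ℤ) - p.2 : ℤ) : ZMod A) * u) := by
      intro p _
      rw [ps_mul_conj]
      congr 1
      push_cast
      ring
    rw [sum_congr rfl h2]
    have hmap : ∀ p ∈ range (2 ^ i) ×ˢ range (2 ^ i), (p.1 : ℤ) - p.2 ∈ Icc (-(L : ℤ)) L := by
      intro p hp
      rw [mem_product, mem_range, mem_range] at hp
      rw [mem_Icc]
      omega
    rw [← sum_fiberwise_of_maps_to hmap]
    refine sum_congr rfl fun s _ => ?_
    have : ∀ p ∈ (range (2 ^ i) ×ˢ range (2 ^ i)).filter (fun p : ℕ × ℕ => (p.1 : ℤ) - p.2 = s),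
        ps A ((((p.1 : ℤ) - p.2 : ℤ) : ZMod A) * u) = ps A ((s : ZMod A) * u) := by
      intro p hp
      rw [(mem_filter.mp hp).2]
    rw [sum_congr rfl this, sum_const, nsmul_eq_mul]
    rfl
  unfold K Wc
  rw [Complex.ofReal_sum]
  have h2 : ∀ i ∈ range (Nat.log 2 L + 1), ((((2 : ℝ) ^ i)⁻¹ *
      ‖∑ j ∈ range (2 ^ i), ps A ((j : ZMod A) * u)‖ ^ 2 : ℝ) : ℂ) =
      ∑ s ∈ Icc (-(L : ℤ)) L, (((((2 : ℝ) ^ i)⁻¹ * cd (2 ^ i) s : ℝ)) : ℂ) * ps A ((s : ZMod A) * u) := by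
    intro i hi
    rw [Complex.ofReal_mul, h1 i hi, mul_sum]
    refine sum_congr rfl fun s _ => ?_
    push_cast
    ring
  rw [sum_congr rfl h2, sum_comm]
  refine sum_congr rfl fun s _ => ?_
  rw [← sum_mul, ← Complex.ofReal_sum]

/-- the majorant of `U` -/
noncomputable def PP (A : ℕ) [NeZero A] (V L : ℕ) (u : ZMod A) : ℝ :=
  ∑ v ∈ Icc (-(V : ℤ)) V, K A L ((v : ZMod A) * u)

/-- coefficients -/
noncomputable def cc (V L : ℕ) (n : ℤ) : ℝ :=
  ∑ x ∈ (Icc (-(V : ℤ)) V ×ˢ Icc (-(L : ℤ)) L).filter (fun x => x.1 * x.2 = n), Wc L x.2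

theorem cc_le (V L : ℕ) (n : ℤ) : |cc V L n| ≤ (Nat.log 2 L + 1) * rr V L n := by
  rw [abs_of_nonneg (sum_nonneg fun x _ => Wc_nonneg L x.2)]
  unfold cc rr
  refine (sum_le_sum fun x _ => Wc_le L x.2).trans ?_
  rw [sum_const, nsmul_eq_mul]
  rw [mul_comm]

theorem PP_eq (A : ℕ) [NeZero A] (V L : ℕ) (hL : 1 ≤ L) (u : ZMod A) :
    (PP A V L u : ℂ) = ∑ n ∈ Icc (-(V * L : ℤ)) (V * L), (cc V L n : ℂ) * ps A ((n : ZMod A) * u) := by
  unfold PP
  rw [Complex.ofReal_sum]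
  simp only [K_eq A L hL]
  rw [← sum_product']
  have hmap : ∀ x ∈ Icc (-(V : ℤ)) V ×ˢ Icc (-(L : ℤ)) L, x.1 * x.2 ∈ Icc (-(V * L : ℤ)) (V * L) := by
    intro x hx
    rw [mem_product, mem_Icc, mem_Icc] at hx
    rw [mem_Icc, ← abs_le, abs_mul]
    exact mul_le_mul (abs_le.mpr hx.1) (abs_le.mpr hx.2) (abs_nonneg _) (by positivity)
  rw [← sum_fiberwise_of_maps_to hmap]
  refine sum_congr rfl fun n _ => ?_
  unfold cc
  rw [Complex.ofReal_sum, sum_mul]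
  refine sum_congr rfl fun x hx => ?_
  have h := (mem_filter.mp hx).2
  congr 2
  rw [← h]
  push_cast
  ring

end Us

open Us

theorem U_sq : ∃ C : ℝ, 0 < C ∧ ∀ (A V L : ℕ) [NeZero A], 1 ≤ L → 1 ≤ V → 4 * V * L < A →
    (A : ℝ)⁻¹ * ∑ u : ZMod A, U A V L u ^ 2 ≤
      C * (1 + Real.log (V + L)) ^ 4 * ((V : ℝ) + L) ^ 2 := by
  refine ⟨64 * 4 * 17, by norm_num, ?_⟩
  intro A V L _ hL hV hA
  have hA0 : (0 : ℝ) < A := Nat.cast_pos.mpr (Nat.pos_of_ne_zero (NeZero.ne A))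
  have hL' : (1 : ℝ) ≤ L := by exact_mod_cast hL
  have hV' : (1 : ℝ) ≤ V := by exact_mod_cast hV
  have h1 : ∀ u : ZMod A, U A V L u ^ 2 ≤ 64 * ‖∑ n ∈ Icc (-(V * L : ℤ)) (V * L),
      (cc V L n : ℂ) * ps A ((n : ZMod A) * u)‖ ^ 2 := by
    intro u
    rw [← PP_eq A V L hL u, Complex.norm_real, Real.norm_eq_abs, sq_abs]
    have h2 : U A V L u ≤ 8 * PP A V L u := by
      unfold U PP
      rw [mul_sum]
      exact sum_le_sum fun v _ => mn_le A L hL _
    have h3 : 0 ≤ U A V L u := by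
      unfold U mn
      refine sum_nonneg fun v _ => inv_nonneg.mpr (le_trans ?_ (le_max_left _ _))
      positivity
    have h4 := pow_le_pow_left₀ h3 h2 2
    linarith [h4, (by ring : (8 * PP A V L u) ^ 2 = 64 * PP A V L u ^ 2)]
  have hinj : Set.InjOn (fun n : ℤ => (n : ZMod A)) (Icc (-(V * L : ℤ)) (V * L)) := by
    intro a ha b hb hab
    rw [coe_Icc, Set.mem_Icc] at ha hb
    dsimp only at hab
    have h2 : (A : ℤ) ∣ b - a := (ZMod.intCast_eq_intCast_iff_dvd_sub a b A).mp hab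
    have h3 : |b - a| < (A : ℤ) := by
      have hA' : (4 * V * L : ℤ) < A := by exact_mod_cast hA
      have hVL : (0 : ℤ) ≤ V * L := by positivity
      rw [abs_lt]
      constructor <;> nlinarith
    have h4 := Int.eq_zero_of_abs_lt_dvd h2 h3
    omega
  have h2 := orth A (Icc (-(V * L : ℤ)) (V * L)) (fun n : ℤ => (n : ZMod A)) hinj (fun n => (cc V L n : ℂ))
  have h3 : (A : ℝ)⁻¹ * ∑ u : ZMod A, U A V L u ^ 2 ≤ 64 * ∑ n ∈ Icc (-(V * L : ℤ)) (V * L),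
      ‖(cc V L n : ℂ)‖ ^ 2 := by
    rw [← h2]
    have h4 := mul_le_mul_of_nonneg_left (sum_le_sum fun u (_ : u ∈ (univ : Finset (ZMod A))) => h1 u)
      (inv_nonneg.mpr hA0.le)
    refine h4.trans (le_of_eq ?_)
    rw [← mul_sum]
    ring
  refine h3.trans ?_
  have h4 : ∑ n ∈ Icc (-(V * L : ℤ)) (V * L), ‖(cc V L n : ℂ)‖ ^ 2 ≤
      ((Nat.log 2 L : ℝ) + 1) ^ 2 * ∑ n ∈ Icc (-(V * L : ℤ)) (V * L), (rr V L n : ℝ) ^ 2 := by
    rw [mul_sum]
    refine sum_le_sum fun n _ => ?_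
    rw [Complex.norm_real, Real.norm_eq_abs, ← mul_pow]
    exact pow_le_pow_left₀ (abs_nonneg _) (cc_le V L n) 2
  have h5 := energy V L
  set T : ℝ := (V : ℝ) + L with hT
  have hT2 : 2 ≤ T := by linarith
  set G : ℝ := 1 + Real.log T with hG
  have hlogT : 0 ≤ Real.log T := Real.log_nonneg (by linarith)
  have hG1 : 1 ≤ G := by linarith
  have hlV : 1 + Real.log V ≤ G := by
    have := Real.log_le_log (by linarith : (0 : ℝ) < V) (by linarith : (V : ℝ) ≤ T)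
    linarith
  have hlL : 1 + Real.log L ≤ G := by
    have := Real.log_le_log (by linarith : (0 : ℝ) < L) (by linarith : (L : ℝ) ≤ T)
    linarith
  have hlV0 : 0 ≤ 1 + Real.log V := by
    have := Real.log_nonneg hV'
    linarith
  have hlL0 : 0 ≤ 1 + Real.log L := by
    have := Real.log_nonneg hL'
    linarith
  have h6 : (Nat.log 2 L : ℝ) + 1 ≤ 2 * G := by
    have h7 : (2 : ℝ) ^ (Nat.log 2 L) ≤ L := by exact_mod_cast Nat.pow_log_le_self 2 (by omega)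
    have h8 := Real.log_le_log (by positivity) h7
    rw [Real.log_pow] at h8
    have h9 := Real.log_two_gt_d9
    have h10 : (0 : ℝ) ≤ (Nat.log 2 L : ℝ) := Nat.cast_nonneg _
    have h11 : (Nat.log 2 L : ℝ) * (1 / 2) ≤ Real.log L := by nlinarith
    linarith
  have h7 : ((Nat.log 2 L : ℝ) + 1) ^ 2 ≤ 4 * G ^ 2 := by
    have := pow_le_pow_left₀ (by positivity) h6 2
    linarith [this, (by ring : (2 * G) ^ 2 = 4 * G ^ 2)]
  have h8 : ∑ n ∈ Icc (-(V * L : ℤ)) (V * L), (rr V L n : ℝ) ^ 2 ≤ 17 * T ^ 2 * G ^ 2 := by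
    refine h5.trans ?_
    have e1 : (2 * (V : ℝ) + 2 * L + 2) ^ 2 ≤ 9 * T ^ 2 := by
      have : 2 * (V : ℝ) + 2 * L + 2 ≤ 3 * T := by linarith
      have := pow_le_pow_left₀ (by positivity) this 2
      linarith [this, (by ring : (3 * T) ^ 2 = 9 * T ^ 2)]
    have e2 : (V : ℝ) * (1 + Real.log V) ≤ T * G :=
      mul_le_mul (by linarith) hlV hlV0 (by linarith)
    have e3 : (L : ℝ) * (1 + Real.log L) ≤ T * G :=
      mul_le_mul (by linarith) hlL hlL0 (by linarith)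
    have e4 : (V : ℝ) * (1 + Real.log V) * (L * (1 + Real.log L)) ≤ (T * G) * (T * G) :=
      mul_le_mul e2 e3 (by positivity) (by positivity)
    have e5 : T ^ 2 ≤ T ^ 2 * G ^ 2 := by
      have : 1 ≤ G ^ 2 := one_le_pow₀ hG1
      nlinarith [sq_nonneg T]
    nlinarith
  have h9 : (0 : ℝ) ≤ ∑ n ∈ Icc (-(V * L : ℤ)) (V * L), (rr V L n : ℝ) ^ 2 := by positivity
  have h10 := mul_le_mul h7 h8 h9 (by positivity)
  have h11 := h4.trans h10
  have h12 : 4 * G ^ 2 * (17 * T ^ 2 * G ^ 2) = 68 * (G ^ 4 * T ^ 2) := by ring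
  rw [h12] at h11
  have h13 : (64 * 4 * 17 : ℝ) * G ^ 4 * T ^ 2 = 64 * (68 * (G ^ 4 * T ^ 2)) := by ring
  rw [h13]
  linarith

end Stx
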